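import Pool.Agent.CliqueSharp.Count
import Pool.Agent.Helper86.ST.Window

set_option autoImplicit false

open Finset
open Pool.Agent.CliqueCount (clq vals)
open Pool.Agent.CliqueSharp (lead_values three_pow_lt)

namespace Pool.Agent.Helper86.ST

/-- the number of possible leading parts -/
def bnd (n ν y2 s₀ κ W1 W2 : ℕ) : ℕ :=
  2 ^ ((2 * ν + y2 + κ) ^ 2) * ((2 ^ (2 * ν + y2 + κ) + 1) ^ W1 *
      ((2 ^ (y2 + κ) + 1) ^ W2 * (n + 1) ^ ((y2 + 1) ^ s₀ * 2 ^ κ)))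

theorem count_le {n ν x m j₀ J y2 s₀ : ℕ} (θ κ : ℕ → ℕ) (hθm : Monotone θ) (hκ : Monotone κ)
    (hm : 1 ≤ m) (hmj : m ≤ j₀ + 1) (hθ : 2 * ν + 1 ≤ θ j₀) (hν : 3 * x + 3 ≤ ν)
    (hsum : x + (2 * m * ν / (y2 + 1)) * (κ J + 1) < ∑ j ∈ Ioc j₀ J, (κ j + 1)) (hxn : x ≤ n) :
    {N ∈ vals n | 2 ^ (n - x) ≤ N}.ncard ≤
      ∑ j ∈ Ioc j₀ J, bnd n ν y2 s₀ (κ j) (2 * ν * θ (j - m)) (y2 * θ (j - 1) / (s₀ + 1)) *
        (2 ^ (2 * ν + (n - θ j)) + 1) := by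
  classical
  choose Φ hΦ1 hΦ2 using fun j => lead_values n (2 * ν) y2 (κ j) s₀ (2 * ν * θ (j - m))
    (y2 * θ (j - 1) / (s₀ + 1))
  let B : ℕ → Finset ℕ := fun j =>
    (Φ j ×ˢ range (2 ^ (2 * ν + (n - θ j)) + 1)).image (fun p => p.1 + p.2)
  have hsub : {N ∈ vals n | 2 ^ (n - x) ≤ N} ⊆ (((Ioc j₀ J).biUnion B : Finset ℕ) : Set ℕ) := by
    rintro N ⟨⟨G, rfl⟩, hN⟩
    have hbig : 3 ^ ν * 2 ^ n < (clq G).card * 4 ^ ν := by
      calc 3 ^ ν * 2 ^ n = 2 ^ (n - x) * (3 ^ ν * 2 ^ x) := by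
            have : (2 : ℕ) ^ n = 2 ^ (n - x) * 2 ^ x := by rw [← pow_add]; congr 1; omega
            rw [this]; ring
        _ < 2 ^ (n - x) * 4 ^ ν := Nat.mul_lt_mul_of_pos_left (three_pow_lt hν) (by positivity)
        _ ≤ (clq G).card * 4 ^ ν := Nat.mul_le_mul_right _ hN
    obtain ⟨j, hj, C, C1, C2, C3, h1, h2, h3, h12, h13, h23, hW1, hW2, r, hr, he⟩ :=
      window3 (s₀ := s₀) θ κ hθm hκ hm hmj hθ hsum G hbig hN hxn
    rw [mem_coe, mem_biUnion]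
    refine ⟨j, hj, ?_⟩
    simp only [B, mem_image, mem_product]
    refine ⟨(_, r), ⟨?_, mem_range.2 (Nat.lt_succ_of_le hr)⟩, he.symm⟩
    exact hΦ2 j G C C1 C2 C3 h1 h2 h3 h12 h13 h23 hW1 hW2
  calc {N ∈ vals n | 2 ^ (n - x) ≤ N}.ncard
      ≤ (((Ioc j₀ J).biUnion B : Finset ℕ) : Set ℕ).ncard :=
        Set.ncard_le_ncard hsub (Finset.finite_toSet _)
    _ = ((Ioc j₀ J).biUnion B).card := Set.ncard_coe_finset _
    _ ≤ ∑ j ∈ Ioc j₀ J, (B j).card := Finset.card_biUnion_le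
    _ ≤ _ := by
      apply Finset.sum_le_sum
      intro j _
      refine Finset.card_image_le.trans ?_
      rw [card_product, card_range]
      exact Nat.mul_le_mul_right _ (hΦ1 j)

lemma pow_aux (w A : ℕ) : (2 ^ w + 1) ^ A ≤ 2 ^ ((w + 1) * A) := by
  rw [pow_mul]
  apply Nat.pow_le_pow_left
  rw [pow_succ]
  have := Nat.one_le_two_pow (n := w)
  omega

/-- the bound as a power of two -/
lemma bnd_le {n ν y2 s₀ κ W1 W2 L T : ℕ} (hL : n + 1 ≤ 2 ^ (L + 1)) :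
    bnd n ν y2 s₀ κ W1 W2 * (2 ^ (2 * ν + (n - T)) + 1) ≤
      2 ^ (((2 * ν + y2 + κ) ^ 2 + ((2 * ν + y2 + κ + 1) * W1 +
        ((y2 + κ + 1) * W2 +
          (L + 1) * ((y2 + 1) ^ s₀ * 2 ^ κ)))) + (2 * ν + (n - T) + 1)) := by
  rw [pow_add 2 _ (2 * ν + (n - T) + 1)]
  apply Nat.mul_le_mul
  · unfold bnd
    rw [pow_add 2 ((2 * ν + y2 + κ) ^ 2)]
    apply Nat.mul_le_mul_left
    rw [pow_add 2 ((2 * ν + y2 + κ + 1) * W1)]
    apply Nat.mul_le_mul (pow_aux _ _)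
    rw [pow_add 2 ((y2 + κ + 1) * W2)]
    apply Nat.mul_le_mul (pow_aux _ _)
    rw [pow_mul 2 (L + 1)]
    exact Nat.pow_le_pow_left hL _
  · rw [pow_succ]
    have := Nat.one_le_two_pow (n := 2 * ν + (n - T))
    omega

end Pool.Agent.Helper86.ST
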