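import Pool.Agent.Helper86.ST.Count

set_option autoImplicit false

open Finset
open Pool.Agent.CliqueCount (clq vals)

namespace Pool.Agent.Helper86.ST

/-- the exponent at one scale `T = 2 ^ k` -/
lemma expo {u x C₀ t e ρ ν k : ℕ} (hν : ν = 3 * x + 3) (hC : 24 * x + 25 + u ≤ C₀ * u)
    (he : C₀ * u ≤ 2 ^ e) (he1 : 1 ≤ e) (ht : 1 ≤ t) (hu : 1 ≤ u)
    (hρ : 32 * C₀ ^ 2 * t * e * u ≤ 2 ^ ρ)
    (hq : 16 * (u + 1) ≤ 2 ^ (u / t)) (hk : 2 * (u / t) ≤ k) (hku : k ≤ u)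
    (hbig : 16 * (C₀ * u) ^ 2 ≤ 2 ^ k) {θ1 θ3 : ℕ} (h1 : θ1 * 2 ^ ρ ≤ 2 ^ k)
    (h3 : θ3 * 2 ^ (3 * ρ) ≤ 2 ^ k) :
    2 * (((2 * ν + 6 * ν + (k - 2 * (u / t))) ^ 2 +
      ((2 * ν + 6 * ν + (k - 2 * (u / t)) + 1) * (2 * ν * θ3) +
        ((6 * ν + (k - 2 * (u / t)) + 1) * (6 * ν * θ1 / (u / (t * e) + 1)) +
          (u + 1) * ((6 * ν + 1) ^ (u / (t * e)) * 2 ^ (k - 2 * (u / t)))))) + (2 * ν + 1)) ≤
      2 ^ k := by
  obtain ⟨κ, hκ⟩ : ∃ κ, κ = k - 2 * (u / t) := ⟨_, rfl⟩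
  obtain ⟨W, hW⟩ : ∃ W, W = C₀ * u := ⟨_, rfl⟩
  rw [← hκ]
  have hκu : κ ≤ u := by omega
  have hW1 : 2 * ν + 6 * ν + κ + 1 ≤ W := by omega
  have hC1 : 1 ≤ C₀ := by
    by_contra h
    have : C₀ = 0 := by omega
    rw [this] at hC
    omega
  have hW0 : 1 ≤ W := by omega
  have hWW : W ≤ W ^ 2 := by nlinarith
  -- E1
  have e1 : 16 * (2 * ν + 6 * ν + κ) ^ 2 ≤ 2 ^ k := by
    refine le_trans ?_ hbig
    rw [← hW]
    exact Nat.mul_le_mul_left _ (Nat.pow_le_pow_left (by omega) 2)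
  -- E5
  have e5 : 16 * (2 * ν + 1) ≤ 2 ^ k := by
    refine le_trans ?_ hbig
    rw [← hW]
    apply Nat.mul_le_mul_left
    omega
  have hte : 1 ≤ t * e := Nat.mul_pos ht he1
  -- E2
  have hρ1 : 32 * (C₀ ^ 2 * u) ≤ 2 ^ ρ := by
    refine le_trans ?_ hρ
    calc 32 * (C₀ ^ 2 * u) = 32 * C₀ ^ 2 * 1 * u := by ring
      _ ≤ 32 * C₀ ^ 2 * (t * e) * u := by gcongr
      _ = _ := by ring
  have hρ2 : W ≤ 2 ^ ρ := by
    refine le_trans ?_ hρ1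
    rw [hW]
    nlinarith
  have e2 : 16 * ((2 * ν + 6 * ν + κ + 1) * (2 * ν * θ3)) ≤ 2 ^ k := by
    have h4 : 16 * W ^ 2 ≤ 2 ^ (3 * ρ) := by
      have h5 : 16 ≤ 2 ^ ρ := by
        have : 1 ≤ C₀ ^ 2 * u := Nat.mul_pos (Nat.pow_pos hC1) hu
        omega
      calc 16 * W ^ 2 ≤ 2 ^ ρ * (2 ^ ρ) ^ 2 := Nat.mul_le_mul h5 (Nat.pow_le_pow_left hρ2 2)
        _ = 2 ^ (3 * ρ) := by rw [← pow_mul, ← pow_add]; congr 1; ring
    calc 16 * ((2 * ν + 6 * ν + κ + 1) * (2 * ν * θ3)) ≤ 16 * (W * (W * θ3)) := by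
          gcongr
          omega
      _ = θ3 * (16 * W ^ 2) := by ring
      _ ≤ θ3 * 2 ^ (3 * ρ) := Nat.mul_le_mul_left _ h4
      _ ≤ 2 ^ k := h3
  -- E3
  have e3 : 16 * ((6 * ν + κ + 1) * (6 * ν * θ1 / (u / (t * e) + 1))) ≤ 2 ^ k := by
    have h4 : 6 * ν * θ1 / (u / (t * e) + 1) ≤ C₀ * (t * e) * θ1 := by
      apply Nat.div_le_of_le_mul
      have h5 : u < t * e * (u / (t * e) + 1) := Nat.lt_mul_div_succ u hte
      calc 6 * ν * θ1 ≤ C₀ * u * θ1 := Nat.mul_le_mul_right _ (by omega)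
        _ ≤ C₀ * (t * e * (u / (t * e) + 1)) * θ1 := by gcongr
        _ = _ := by ring
    calc 16 * ((6 * ν + κ + 1) * (6 * ν * θ1 / (u / (t * e) + 1)))
        ≤ 16 * (W * (C₀ * (t * e) * θ1)) := by
          gcongr
          omega
      _ = θ1 * (16 * C₀ ^ 2 * t * e * u) := by rw [hW]; ring
      _ ≤ θ1 * (32 * C₀ ^ 2 * t * e * u) := by gcongr; norm_num
      _ ≤ θ1 * 2 ^ ρ := Nat.mul_le_mul_left _ hρ
      _ ≤ 2 ^ k := h1
  -- E4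
  have e4 : 16 * ((u + 1) * ((6 * ν + 1) ^ (u / (t * e)) * 2 ^ κ)) ≤ 2 ^ k := by
    have h4 : (6 * ν + 1) ^ (u / (t * e)) ≤ 2 ^ (u / t) := by
      calc (6 * ν + 1) ^ (u / (t * e)) ≤ (2 ^ e) ^ (u / (t * e)) :=
            Nat.pow_le_pow_left (by omega) _
        _ = 2 ^ (e * (u / (t * e))) := by rw [pow_mul]
        _ ≤ 2 ^ (u / t) := by
          apply Nat.pow_le_pow_right (by norm_num)
          rw [← Nat.div_div_eq_div_mul]
          exact Nat.mul_div_le _ _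
    calc 16 * ((u + 1) * ((6 * ν + 1) ^ (u / (t * e)) * 2 ^ κ))
        = 16 * (u + 1) * ((6 * ν + 1) ^ (u / (t * e)) * 2 ^ κ) := by ring
      _ ≤ 2 ^ (u / t) * (2 ^ (u / t) * 2 ^ κ) := by gcongr
      _ = 2 ^ k := by
        rw [← pow_add, ← pow_add]
        congr 1
        omega
  omega

theorem count_fin {n u x j C₀ t e ρ : ℕ} (hn1 : 2 ^ u ≤ n) (hn2 : n + 1 ≤ 2 ^ (u + 1))
    (hC : 24 * x + 25 + u ≤ C₀ * u)
    (he : C₀ * u ≤ 2 ^ e) (he1 : 1 ≤ e) (ht : 1 ≤ t) (hu : 1 ≤ u)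
    (hρ : 32 * C₀ ^ 2 * t * e * u ≤ 2 ^ ρ)
    (hq : 16 * (u + 1) ≤ 2 ^ (u / t)) (hw : ρ * (3 + j) + 2 * (u / t) ≤ u)
    (hbig : 16 * (C₀ * u) ^ 2 ≤ 2 ^ (u - ρ * j))
    (hsum : x < (j + 1) * (u - ρ * j - 2 * (u / t) + 1)) (hxn : x ≤ n) :
    {N ∈ vals n | 2 ^ (n - x) ≤ N}.ncard ≤ (j + 1) * 2 ^ (n - 2 ^ (u - ρ * j) / 2) := by
  obtain ⟨w, hwd⟩ : ∃ w, u = w + ρ * (3 + j) := ⟨u - ρ * (3 + j), by omega⟩
  have hj3 : ρ * (3 + j) = 3 * ρ + ρ * j := by ring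
  have hlow : u - ρ * j = w + 3 * ρ := by omega
  have hC1 : 1 ≤ C₀ := by
    by_contra h
    have : C₀ = 0 := by omega
    rw [this] at hC
    omega
  have hρ2 : C₀ * u ≤ 2 ^ ρ := by
    refine le_trans ?_ hρ
    have hte : 1 ≤ t * e := Nat.mul_pos ht he1
    calc C₀ * u ≤ 32 * C₀ ^ 2 * 1 * u := by nlinarith
      _ ≤ 32 * C₀ ^ 2 * (t * e) * u := by gcongr
      _ = _ := by ring
  have hmono : ∀ a b : ℕ, a ≤ b → w + ρ * a ≤ w + ρ * b := fun a b h => by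
    have := Nat.mul_le_mul_left ρ h
    omega
  have h := count_le (n := n) (ν := 3 * x + 3) (x := x) (m := 3) (j₀ := 2) (J := 3 + j)
    (y2 := 6 * (3 * x + 3)) (s₀ := u / (t * e)) (fun i => 2 ^ (w + ρ * i))
    (fun i => w + ρ * i - 2 * (u / t))
    (fun a b hab => Nat.pow_le_pow_right (by norm_num) (hmono a b hab))
    (fun a b hab => by
      have := hmono a b hab
      show w + ρ * a - 2 * (u / t) ≤ w + ρ * b - 2 * (u / t)
      omega) (by norm_num) (by norm_num) ?_ le_rfl ?_ hxn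
  · refine h.trans ?_
    have hcard : (Ioc 2 (3 + j)).card = j + 1 := by rw [Nat.card_Ioc]; omega
    have hs : (j + 1) * 2 ^ (n - 2 ^ (u - ρ * j) / 2) =
        ∑ _i ∈ Ioc 2 (3 + j), 2 ^ (n - 2 ^ (u - ρ * j) / 2) := by
      rw [Finset.sum_const, hcard, smul_eq_mul]
    rw [hs]
    apply Finset.sum_le_sum
    intro i hi
    rw [mem_Ioc] at hi
    refine (bnd_le hn2).trans ?_
    apply Nat.pow_le_pow_right (by norm_num)
    have hi3 := hmono 3 i (by omega)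
    have hiJ := hmono i (3 + j) hi.2
    have hki : u - ρ * j ≤ w + ρ * i := by
      have : ρ * 3 = 3 * ρ := by ring
      omega
    have hkiu : w + ρ * i ≤ u := by omega
    have hT := Nat.pow_le_pow_right (n := 2) (by norm_num) hki
    have hTu := Nat.pow_le_pow_right (n := 2) (by norm_num) hkiu
    have h1 : 2 ^ (w + ρ * (i - 1)) * 2 ^ ρ ≤ 2 ^ (w + ρ * i) := by
      rw [← pow_add]
      apply Nat.pow_le_pow_right (by norm_num)
      have : ρ * i = ρ * (i - 1) + ρ := by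
        obtain ⟨i', rfl⟩ : ∃ i', i = i' + 1 := ⟨i - 1, by omega⟩
        simp only [Nat.add_sub_cancel]; ring
      omega
    have h3 : 2 ^ (w + ρ * (i - 3)) * 2 ^ (3 * ρ) ≤ 2 ^ (w + ρ * i) := by
      rw [← pow_add]
      apply Nat.pow_le_pow_right (by norm_num)
      have : ρ * i = ρ * (i - 3) + 3 * ρ := by
        obtain ⟨i', rfl⟩ : ∃ i', i = i' + 3 := ⟨i - 3, by omega⟩
        simp only [Nat.add_sub_cancel]; ring
      omega
    have key := expo (ν := 3 * x + 3) (k := w + ρ * i) rfl hC he he1 ht hu hρ hq (by omega) hkiu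
      (hbig.trans hT) h1 h3
    have ediv : 2 ^ (u - ρ * j) / 2 ≤ 2 ^ (w + ρ * i) / 2 := Nat.div_le_div_right hT
    omega
  · show 2 * (3 * x + 3) + 1 ≤ 2 ^ (w + ρ * 2)
    have : 2 ^ ρ ≤ 2 ^ (w + ρ * 2) := Nat.pow_le_pow_right (by norm_num) (by omega)
    omega
  · have h0 : 2 * 3 * (3 * x + 3) / (6 * (3 * x + 3) + 1) = 0 := by
      apply Nat.div_eq_of_lt
      omega
    rw [h0, zero_mul, add_zero]
    refine hsum.trans_le ?_
    have hcard : (Ioc 2 (3 + j)).card = j + 1 := by rw [Nat.card_Ioc]; omega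
    have hs : (j + 1) * (u - ρ * j - 2 * (u / t) + 1) =
        ∑ _i ∈ Ioc 2 (3 + j), (u - ρ * j - 2 * (u / t) + 1) := by
      rw [Finset.sum_const, hcard, smul_eq_mul]
    rw [hs]
    apply Finset.sum_le_sum
    intro i hi
    rw [mem_Ioc] at hi
    have hi3 := hmono 3 i (by omega)
    have : ρ * 3 = 3 * ρ := by ring
    show u - ρ * j - 2 * (u / t) + 1 ≤ w + ρ * i - 2 * (u / t) + 1
    omega

end Pool.Agent.Helper86.ST
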