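import Pool.Agent.CliqueSharp.Final

set_option autoImplicit false

open Finset Filter
open Pool.Agent.CliqueCount (vals Reach)
open Pool.Agent.CliqueSharp (Code reach_iter ra_r0 exists_code profile_count)
open Pool.Agent.CliqueSharp.Final (above le_above vals_finite)

namespace Pool.Agent.Helper86.ST

/-- `k + 1` scales of the encoding, the last one being a power of `X` below the first -/
lemma low_one {b c h : ℕ} (D : Code b c h) (hb : h < b) (hc : 2 ≤ c) {r₀ : ℕ}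
    (hr : ∀ r, r₀ ≤ r → (r + 2) * b ≤ c ^ r) {η : ℝ} (hη : 0 < η)
    (hbc : (b : ℝ) ≤ (1 + η) * Real.logb 2 c) {k n K a : ℕ} (ha : 1 ≤ a) {X : ℝ}
    (hX : 0 < X) (h1 : (c : ℝ) ^ a ≤ X) (h2 : X ≤ (c : ℝ) ^ (a + 1))
    (hKn : K ≤ n) (hn : 0 < n)
    (hK : 2 ^ (b + 4) * c ^ (r₀ + a * (k + 1)) ≤ K) :
    ∃ S y B : ℕ, Reach K S y B ∧ S ≤ K ∧
      ((K - S : ℕ) : ℝ) * X ^ (k + 1) ≤ (c : ℝ) ^ (k + 2) * n ∧
      (y : ℝ) ≤ (k + 1) * ((1 + η) * Real.logb 2 n + 2 ^ (b + 4) * X) := by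
  have hc' : (2 : ℝ) ≤ c := by exact_mod_cast hc
  have hc0 : (0 : ℝ) < c := by linarith
  have hn0 : (0 : ℝ) < n := by exact_mod_cast hn
  set M := 2 ^ (b + 4) with hM
  have hM1 : 0 < M := by positivity
  set R := Nat.log c (K / M) with hR
  have e0 : c ^ (r₀ + a * (k + 1)) ≤ K / M := by
    rw [Nat.le_div_iff_mul_le hM1, mul_comm]
    exact hK
  have hKM : K / M ≠ 0 := by
    have : 0 < c ^ (r₀ + a * (k + 1)) := Nat.pow_pos (by omega)
    omega
  have e1 : c ^ R ≤ K / M := Nat.pow_log_le_self _ hKM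
  have e2 : K / M < c ^ (R + 1) := Nat.lt_pow_succ_log_self (by omega) _
  have e3 : M * c ^ R ≤ K := by
    rw [mul_comm]
    exact (Nat.le_div_iff_mul_le hM1).1 e1
  have e4 : K < M * c ^ (R + 1) := by
    rw [mul_comm]
    exact (Nat.div_lt_iff_lt_mul hM1).1 e2
  have e5 : r₀ + a * (k + 1) ≤ R := Nat.le_log_of_pow_le (by omega) e0
  obtain ⟨r', hr'⟩ : ∃ r', R = r' + a * (k + 1) := ⟨R - a * (k + 1), by omega⟩
  have hr₀ : r₀ ≤ r' := by omega
  have hak : a * (k + 1) = a * k + a := by ring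
  obtain ⟨S, y, g1, g2, g3, g4⟩ := reach_iter D hb hc (K := K) (r₀ := r') (a := a) (Q := k)
    (fun r hr1 => hr r (by omega))
    (by
      refine le_trans ?_ e3
      rw [hM]
      apply Nat.mul_le_mul_left
      exact Nat.pow_le_pow_right (by omega) (by omega))
    (by
      have : r' + 1 + a * (k + 1) = R + 1 := by omega
      rw [this]
      exact e4) k le_rfl
  rw [Nat.sub_self, Nat.mul_zero, Nat.add_zero] at g3
  rw [Nat.sub_self] at g4
  refine ⟨S, y, _, g1, g2, ?_, ?_⟩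
  · have f1 : (K - S) * (c ^ a) ^ (k + 1) ≤ c * n := by
      calc (K - S) * (c ^ a) ^ (k + 1) ≤ M * c ^ (r' + 1) * (c ^ a) ^ (k + 1) :=
            Nat.mul_le_mul_right _ g3.le
        _ = c * (M * c ^ R) := by rw [hr', ← pow_mul, pow_add c r' (a * (k + 1))]; ring
        _ ≤ c * n := Nat.mul_le_mul_left _ (e3.trans hKn)
    have f2 : ((K - S : ℕ) : ℝ) * ((c : ℝ) ^ a) ^ (k + 1) ≤ c * n := by exact_mod_cast f1
    calc ((K - S : ℕ) : ℝ) * X ^ (k + 1) ≤ ((K - S : ℕ) : ℝ) * ((c : ℝ) ^ (a + 1)) ^ (k + 1) := by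
          gcongr
      _ = ((K - S : ℕ) : ℝ) * ((c : ℝ) ^ a) ^ (k + 1) * (c : ℝ) ^ (k + 1) := by
          rw [pow_succ (c : ℝ) a, mul_pow]; ring
      _ ≤ c * n * (c : ℝ) ^ (k + 1) := by gcongr
      _ = (c : ℝ) ^ (k + 2) * n := by ring
  · have f1 : y ≤ (k + 1) * (R * b + M * c ^ a) := by
      refine g4.trans ?_
      calc ∑ q ∈ Icc 0 k, ((r' + 1 + a * q) * b + 2 ^ (b + 4) * c ^ a)
          ≤ ∑ q ∈ Icc 0 k, (R * b + M * c ^ a) := by
            apply Finset.sum_le_sum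
            intro q hq
            have hqk : q ≤ k := (mem_Icc.1 hq).2
            have : a * q ≤ a * k := Nat.mul_le_mul_left _ hqk
            exact Nat.add_le_add (Nat.mul_le_mul_right _ (by omega)) le_rfl
        _ = (k + 1) * (R * b + M * c ^ a) := by
            rw [Finset.sum_const, Nat.card_Icc, smul_eq_mul]
            simp
    have f2 : (R : ℝ) * Real.logb 2 c ≤ Real.logb 2 n := by
      rw [← Real.logb_pow]
      apply Real.logb_le_logb_of_le (by norm_num) (by positivity)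
      have : c ^ R ≤ n := by
        calc c ^ R = 1 * c ^ R := (one_mul _).symm
          _ ≤ M * c ^ R := Nat.mul_le_mul_right _ hM1
          _ ≤ K := e3
          _ ≤ n := hKn
      exact_mod_cast this
    have f3 : (R : ℝ) * b ≤ (1 + η) * Real.logb 2 n := by
      calc (R : ℝ) * b ≤ R * ((1 + η) * Real.logb 2 c) := by gcongr
        _ = (1 + η) * (R * Real.logb 2 c) := by ring
        _ ≤ (1 + η) * Real.logb 2 n := by gcongr
    have f4 : (y : ℝ) ≤ (k + 1) * (R * b + 2 ^ (b + 4) * (c : ℝ) ^ a) := by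
      exact_mod_cast f1
    refine f4.trans ?_
    gcongr

/-- `j` steps of the staircase from below -/
theorem low (A : ℝ) (j : ℕ) (hj : 1 ≤ j) (hA : (j : ℝ) < A) : ∃ C : ℝ, 0 < C ∧
    ∀ᶠ n : ℕ in atTop,
      (2 : ℝ) ^ ((n : ℝ) - C * n / Real.logb 2 n ^ j) ≤ above n ((2 : ℝ) ^ n / (n : ℝ) ^ A) := by
  obtain ⟨k, rfl⟩ : ∃ k, j = k + 1 := ⟨j - 1, by omega⟩
  have hk1 : (0 : ℝ) < (k : ℝ) + 1 := by positivity
  push_cast at hA
  have hA0 : 0 < A := by linarith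
  set η : ℝ := (A - (k + 1)) / (4 * (k + 1)) with hηd
  have hη : 0 < η := div_pos (by linarith) (by linarith)
  have hηA : ((k : ℝ) + 1) * (1 + 2 * η) = (A + (k + 1)) / 2 := by
    rw [hηd]; field_simp; ring
  obtain ⟨b, c, h, D, _, hb, hc, hbc⟩ := exists_code η hη
  obtain ⟨r₀, hr⟩ := ra_r0 b hc
  have hc' : (2 : ℝ) ≤ c := by exact_mod_cast hc
  have hc0 : (0 : ℝ) < c := by linarith
  have hMpos : (0 : ℝ) < 2 ^ (b + 4) := by positivity
  set ε : ℝ := η / 2 ^ (b + 4) with hεd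
  have hε : 0 < ε := div_pos hη hMpos
  have hMε : (2 : ℝ) ^ (b + 4) * ε = η := by rw [hεd]; field_simp
  have hT : Tendsto (fun n : ℕ => Real.logb 2 (n : ℝ)) atTop atTop :=
    (Real.tendsto_logb_atTop (by norm_num)).comp tendsto_natCast_atTop_atTop
  -- powers of the logarithm are small
  have hsm : ∀ (B : ℝ) (m : ℕ), ∀ᶠ n : ℕ in atTop, B * Real.logb 2 (n : ℝ) ^ m ≤ n := by
    intro B m
    have h1 : (fun x : ℝ => Real.log x ^ m) =o[atTop] fun x => x := by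
      exact Real.isLittleO_pow_log_id_atTop (n := m)
    have h2 := (h1.comp_tendsto (tendsto_natCast_atTop_atTop (R := ℝ))).bound
      (show (0 : ℝ) < Real.log 2 ^ m / (|B| + 1) by
        have : 0 < Real.log 2 := Real.log_pos (by norm_num)
        positivity)
    filter_upwards [h2, eventually_ge_atTop 1] with n h3 h4
    have hn1 : (1 : ℝ) ≤ n := by exact_mod_cast h4
    have hlog : 0 ≤ Real.log (n : ℝ) := Real.log_nonneg hn1
    have hl2 : 0 < Real.log 2 := Real.log_pos (by norm_num)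
    simp only [Function.comp_apply] at h3
    rw [Real.norm_of_nonneg (by positivity), Real.norm_of_nonneg (by positivity)] at h3
    have h5 : 0 ≤ Real.logb 2 (n : ℝ) ^ m := by
      unfold Real.logb; positivity
    calc B * Real.logb 2 (n : ℝ) ^ m ≤ (|B| + 1) * Real.logb 2 (n : ℝ) ^ m := by
          apply mul_le_mul_of_nonneg_right _ h5
          linarith [le_abs_self B]
      _ = (|B| + 1) / Real.log 2 ^ m * Real.log n ^ m := by
          unfold Real.logb; rw [div_pow]; ring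
      _ ≤ (|B| + 1) / Real.log 2 ^ m * (Real.log 2 ^ m / (|B| + 1) * n) := by gcongr
      _ = n := by field_simp
  refine ⟨(c : ℝ) ^ (k + 2) / ε ^ (k + 1) + 1, by positivity, ?_⟩
  filter_upwards [hT.eventually_ge_atTop (1 + (c + 1) / ε), hT.eventually_ge_atTop (4 / (A - (k + 1))),
    hT.eventually_ge_atTop (2 / A),
    hsm (2 * (2 ^ (b + 4) * (c : ℝ) ^ r₀ * ε ^ (k + 1))) (k + 1), hsm (2 * A) 1, hsm A (k + 2),
    eventually_ge_atTop 1] with n t1 t2 t2' t3 t4 t5 t6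
  have hn0 : (0 : ℝ) < n := by exact_mod_cast t6
  set x := Real.logb 2 (n : ℝ) with hx
  have hx1 : 1 ≤ x := by
    have : 0 ≤ ((c : ℝ) + 1) / ε := by positivity
    linarith
  have hx0 : 0 < x := by linarith
  have hnx : (n : ℝ) = (2 : ℝ) ^ x := by
    rw [hx, Real.rpow_logb (by norm_num) (by norm_num) hn0]
  -- the scale
  have hεx : (c : ℝ) + 1 ≤ ε * x := by
    have : (c + 1) / ε ≤ x := by linarith
    rw [div_le_iff₀ hε] at this
    linarith
  have hfl1 : (⌊ε * x⌋₊ : ℝ) ≤ ε * x := Nat.floor_le (by positivity)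
  have hfl2 : ε * x < (⌊ε * x⌋₊ : ℝ) + 1 := Nat.lt_floor_add_one _
  have hfl3 : c ≤ ⌊ε * x⌋₊ := Nat.le_floor (by linarith)
  set a := Nat.log c ⌊ε * x⌋₊ with ha
  have ha1 : 1 ≤ a := Nat.le_log_of_pow_le (by omega) (by simpa using hfl3)
  have ha2 : (c : ℝ) ^ a ≤ ε * x := by
    have : c ^ a ≤ ⌊ε * x⌋₊ := Nat.pow_log_le_self _ (by omega)
    have h1 : ((c ^ a : ℕ) : ℝ) ≤ (⌊ε * x⌋₊ : ℝ) := by exact_mod_cast this
    push_cast at h1
    linarith
  have ha3 : ε * x ≤ (c : ℝ) ^ (a + 1) := by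
    have : ⌊ε * x⌋₊ < c ^ (a + 1) := Nat.lt_pow_succ_log_self (by omega) _
    have h1 : ((⌊ε * x⌋₊ + 1 : ℕ) : ℝ) ≤ ((c ^ (a + 1) : ℕ) : ℝ) := by exact_mod_cast this
    push_cast at h1
    linarith
  -- the size of the part at the top
  rw [pow_one] at t4
  set Y := ⌊A * x⌋₊ - 1 with hY
  have hAx2 : 2 ≤ A * x := by
    rw [div_le_iff₀ hA0] at t2'
    linarith
  have hY0 : 1 ≤ ⌊A * x⌋₊ := Nat.le_floor (by push_cast; linarith)
  have hYr : (Y : ℝ) = (⌊A * x⌋₊ : ℝ) - 1 := by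
    rw [hY, Nat.cast_sub hY0]; simp
  have hY1 : (Y : ℝ) ≤ A * x - 1 := by
    have := Nat.floor_le (show 0 ≤ A * x by positivity)
    linarith
  have hY2 : A * x - 2 ≤ Y := by
    have := Nat.lt_floor_add_one (A * x)
    linarith
  have hYn : Y ≤ n := by
    have : (Y : ℝ) ≤ n := by linarith
    exact_mod_cast this
  have hKr : ((n - Y : ℕ) : ℝ) = (n : ℝ) - Y := Nat.cast_sub hYn
  have hKbig : 2 ^ (b + 4) * c ^ (r₀ + a * (k + 1)) ≤ n - Y := by
    have h1 : ((2 ^ (b + 4) * c ^ (r₀ + a * (k + 1)) : ℕ) : ℝ) ≤ ((n - Y : ℕ) : ℝ) := by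
      rw [hKr]
      push_cast
      calc (2 : ℝ) ^ (b + 4) * (c : ℝ) ^ (r₀ + a * (k + 1)) =
            2 ^ (b + 4) * (c : ℝ) ^ r₀ * ((c : ℝ) ^ a) ^ (k + 1) := by
              rw [pow_add (c : ℝ) r₀, pow_mul]; ring
        _ ≤ 2 ^ (b + 4) * (c : ℝ) ^ r₀ * (ε * x) ^ (k + 1) := by gcongr
        _ = (2 * (2 ^ (b + 4) * (c : ℝ) ^ r₀ * ε ^ (k + 1)) * x ^ (k + 1)) / 2 := by
              rw [mul_pow]; ring
        _ ≤ n / 2 := by linarith
        _ ≤ n - Y := by linarith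
    exact_mod_cast h1
  obtain ⟨S, y, B, g1, g2, g3, g4⟩ := low_one D hb hc hr hη hbc (k := k) (n := n) (K := n - Y)
    (a := a) ha1 (X := ε * x) (by positivity) ha2 ha3 (Nat.sub_le _ _) (by omega) hKbig
  have hyY : y ≤ Y := by
    have h1 : (y : ℝ) ≤ Y := by
      refine g4.trans ?_
      have h2 : ((k : ℝ) + 1) * ((1 + η) * x + 2 ^ (b + 4) * (ε * x)) =
          ((k : ℝ) + 1) * (1 + 2 * η) * x := by
        rw [← mul_assoc ((2 : ℝ) ^ (b + 4)), hMε]; ring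
      rw [h2, hηA]
      have h3 : 4 ≤ x * (A - (k + 1)) := by
        rw [div_le_iff₀ (by linarith)] at t2
        exact t2
      nlinarith
    exact_mod_cast h1
  have hcount := profile_count g1 hyY (Nat.sub_add_cancel hYn)
  -- comparison of the thresholds
  have hthr : (2 : ℝ) ^ n / (n : ℝ) ^ A + 1 ≤ ((2 ^ (n - Y) : ℕ) : ℝ) := by
    have e1 : (n : ℝ) ^ A = (2 : ℝ) ^ (A * x) := by
      conv_lhs => rw [hnx]
      rw [← Real.rpow_mul (by norm_num)]
      congr 1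
      ring
    have e2 : (2 : ℝ) ^ n / (n : ℝ) ^ A = (2 : ℝ) ^ ((n : ℝ) - A * x) := by
      rw [e1, Real.rpow_sub (by norm_num), Real.rpow_natCast]
    have e3 : (1 : ℝ) ≤ (2 : ℝ) ^ ((n : ℝ) - A * x) :=
      Real.one_le_rpow (by norm_num) (by linarith)
    have e4 : (2 : ℝ) * (2 : ℝ) ^ ((n : ℝ) - A * x) = (2 : ℝ) ^ (1 + ((n : ℝ) - A * x)) := by
      rw [Real.rpow_add (by norm_num), Real.rpow_one]
    have e5 : (2 : ℝ) ^ (1 + ((n : ℝ) - A * x)) ≤ ((2 ^ (n - Y) : ℕ) : ℝ) := by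
      push_cast
      rw [← Real.rpow_natCast, hKr]
      apply Real.rpow_le_rpow_of_exponent_le (by norm_num)
      linarith
    rw [e2]
    linarith
  have hsub : {N ∈ vals n | 2 ^ (n - Y) ≤ N} ⊆
      {N ∈ vals n | (2 : ℝ) ^ n / (n : ℝ) ^ A + 1 ≤ N} := by
    rintro N ⟨hN1, hN2⟩
    refine ⟨hN1, hthr.trans ?_⟩
    exact_mod_cast hN2
  have hcard := Set.ncard_le_ncard hsub ((vals_finite n).subset (fun N hN => hN.1))
  have hfin : ((2 ^ S : ℕ) : ℝ) ≤ above n ((2 : ℝ) ^ n / (n : ℝ) ^ A) := by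
    exact_mod_cast (hcount.trans hcard).trans (le_above n _)
  refine le_trans ?_ hfin
  push_cast
  rw [← Real.rpow_natCast 2 S]
  apply Real.rpow_le_rpow_of_exponent_le (by norm_num)
  -- the exponent
  have hxk : 0 < x ^ (k + 1) := by positivity
  have h5 : ((n - Y - S : ℕ) : ℝ) = (n : ℝ) - Y - S := by
    rw [Nat.cast_sub g2, hKr]
  rw [h5, mul_pow] at g3
  have h6 : (n : ℝ) - Y - S ≤ (c : ℝ) ^ (k + 2) / ε ^ (k + 1) * n / x ^ (k + 1) := by
    rw [le_div_iff₀ hxk, div_mul_eq_mul_div, le_div_iff₀ (by positivity)]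
    calc ((n : ℝ) - Y - S) * x ^ (k + 1) * ε ^ (k + 1) =
          ((n : ℝ) - Y - S) * (ε ^ (k + 1) * x ^ (k + 1)) := by ring
      _ ≤ _ := g3
  have h7 : (Y : ℝ) ≤ n / x ^ (k + 1) := by
    rw [le_div_iff₀ hxk]
    calc (Y : ℝ) * x ^ (k + 1) ≤ A * x * x ^ (k + 1) := by
          apply mul_le_mul_of_nonneg_right _ hxk.le
          linarith
      _ = A * x ^ (k + 2) := by ring
      _ ≤ n := t5
  have h8 : ((c : ℝ) ^ (k + 2) / ε ^ (k + 1) + 1) * n / x ^ (k + 1) =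
      (c : ℝ) ^ (k + 2) / ε ^ (k + 1) * n / x ^ (k + 1) + n / x ^ (k + 1) := by ring
  rw [h8]
  linarith

end Pool.Agent.Helper86.ST
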