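import Pool.Agent.CliqueSharp.Final
import Pool.Agent.Helper52.CT.Fin

/-!
# Number of graphs values above `2 ^ n / n ^ A`, `0 < A < 1` (helper7, for MP_b34c1f, Staircase)
-/

set_option autoImplicit false

open Finset Filter Topology
open Pool.Agent.CliqueCount (clq mem_clq vals Attain Reach reach_zero)
open Pool.Agent.CliqueSharp (reach_step ra_r0 exists_code P_le P Code profile_count)
open Pool.Agent.CliqueSharp.Final (S above mem_S_iff S_finite vals_finite le_above above_mono)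

namespace Pool.Agent.Helper86.ST

theorem sm_lg : Tendsto (fun n : ℕ => Real.logb 2 (n : ℝ)) atTop atTop :=
  (Real.tendsto_logb_atTop (by norm_num)).comp tendsto_natCast_atTop_atTop

theorem sm_pow_lg {n : ℕ} (hn : 0 < n) (s : ℝ) : (n : ℝ) ^ s = (2 : ℝ) ^ (s * Real.logb 2 n) := by
  have hn0 : (0 : ℝ) < n := by exact_mod_cast hn
  rw [mul_comm, Real.rpow_mul (by norm_num), Real.rpow_logb (by norm_num) (by norm_num) hn0]

theorem sm_ev (C δ : ℝ) (hδ : 0 < δ) : ∀ᶠ n : ℕ in atTop, C * (Real.logb 2 n + 1) ^ 3 ≤ (n : ℝ) ^ δ := by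
  have h2 : (fun x : ℝ => Real.log x ^ (3 : ℝ)) =o[atTop] fun x => x ^ δ :=
    isLittleO_log_rpow_rpow_atTop 3 hδ
  have h3 : ∀ᶠ x : ℝ in atTop, ‖Real.log x ^ (3 : ℝ)‖ ≤ (1 / (64 * (|C| + 1))) * ‖x ^ δ‖ :=
    h2.def (by positivity)
  filter_upwards [sm_lg.eventually_ge_atTop 1, tendsto_natCast_atTop_atTop.eventually h3,
    eventually_ge_atTop 2] with n a b c
  have hn1 : (1 : ℝ) ≤ n := by exact_mod_cast (by omega : 1 ≤ n)
  have hlog : 0 ≤ Real.log n := Real.log_nonneg hn1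
  rw [Real.norm_of_nonneg (by positivity), Real.norm_of_nonneg (by positivity)] at b
  have e1 : Real.log (n : ℝ) ^ (3 : ℝ) = Real.log n ^ 3 := by norm_cast
  rw [e1] at b
  have hl2 := Real.log_two_gt_d9
  have e2 : Real.logb 2 n ≤ 2 * Real.log n := by
    unfold Real.logb
    rw [div_le_iff₀ (by linarith)]
    nlinarith
  have e3 : (Real.logb 2 n + 1) ^ 3 ≤ 64 * Real.log n ^ 3 := by
    calc (Real.logb 2 n + 1) ^ 3 ≤ (4 * Real.log n) ^ 3 :=
          pow_le_pow_left₀ (by linarith) (by linarith) 3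
      _ = 64 * Real.log n ^ 3 := by ring
  have hp : 0 ≤ (Real.logb 2 n + 1) ^ 3 := by positivity
  have hC : C ≤ |C| + 1 := by linarith [le_abs_self C]
  have hC0 : 0 < |C| + 1 := by positivity
  calc C * (Real.logb 2 n + 1) ^ 3 ≤ (|C| + 1) * (Real.logb 2 n + 1) ^ 3 := mul_le_mul_of_nonneg_right hC hp
    _ ≤ (|C| + 1) * (64 * Real.log n ^ 3) := mul_le_mul_of_nonneg_left e3 hC0.le
    _ ≤ (|C| + 1) * (64 * (1 / (64 * (|C| + 1)) * (n : ℝ) ^ δ)) := by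
        refine mul_le_mul_of_nonneg_left ?_ hC0.le
        linarith
    _ = (n : ℝ) ^ δ := by field_simp

theorem small_up (A : ℝ) (h0 : 0 < A) (h1 : A < 1) (ε : ℝ) (hε : 0 < ε) : ∀ᶠ n : ℕ in atTop,
    (above n ((2 : ℝ) ^ n / (n : ℝ) ^ A) : ℝ) ≤ (2 : ℝ) ^ ((n : ℝ) ^ (A + ε)) := by
  filter_upwards [sm_ev 100 ε hε, sm_ev 1 1 one_pos, sm_lg.eventually_ge_atTop 1,
    eventually_ge_atTop 2] with n e1 e2 e3 e4
  have hn0 : 0 < n := by omega
  have hnR : (1 : ℝ) ≤ n := by exact_mod_cast (by omega : 1 ≤ n)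
  set L := Real.logb 2 (n : ℝ) with hL
  set k := ⌈A * L⌉₊ with hk
  have hAL : 0 < A * L := mul_pos h0 (by linarith)
  have k1 : 1 ≤ k := Nat.one_le_ceil_iff.2 hAL
  have k2 : A * L ≤ k := Nat.le_ceil _
  have k3 : (k : ℝ) < A * L + 1 := Nat.ceil_lt_add_one hAL.le
  have k4 : (k : ℝ) ≤ L + 1 := by nlinarith
  rw [Real.rpow_one] at e2
  have hL1 : L + 1 ≤ (L + 1) ^ 3 := by nlinarith [sq_nonneg L, sq_nonneg (L + 1)]
  have kn : k ≤ n := by
    have : (k : ℝ) ≤ n := by linarith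
    exact_mod_cast this
  have u1 := Pool.Agent.Helper52.CT.upper (n := n) k1 kn
  have u2 : above n ((2 : ℝ) ^ n / (n : ℝ) ^ A) ≤ above n (2 ^ (n - k)) := by
    refine above_mono n ?_
    have hA : (n : ℝ) ^ A ≤ (2 : ℝ) ^ k := by
      rw [sm_pow_lg hn0, ← Real.rpow_natCast 2 k]
      exact Real.rpow_le_rpow_of_exponent_le (by norm_num) k2
    have hpos : 0 < (n : ℝ) ^ A := Real.rpow_pos_of_pos (by linarith) _
    rw [le_div_iff₀ hpos]
    calc (2 : ℝ) ^ (n - k) * (n : ℝ) ^ A ≤ (2 : ℝ) ^ (n - k) * (2 : ℝ) ^ k :=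
          mul_le_mul_of_nonneg_left hA (by positivity)
      _ = 2 ^ n := by rw [← pow_add, Nat.sub_add_cancel kn]
  have u3 : (above n ((2 : ℝ) ^ n / (n : ℝ) ^ A) : ℝ) ≤ (2 : ℝ) ^ (98 * k ^ 3) * ((n : ℝ) + 1) ^ (2 ^ k - 1) := by
    exact_mod_cast u2.trans u1
  refine u3.trans ?_
  -- everything as a power of two
  have v1 : ((n : ℝ) + 1) ≤ (2 : ℝ) ^ (L + 1) := by
    rw [Real.rpow_add (by norm_num), hL, Real.rpow_logb (by norm_num) (by norm_num) (by linarith), Real.rpow_one]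
    linarith
  have v2 : ((n : ℝ) + 1) ^ (2 ^ k - 1) ≤ (2 : ℝ) ^ ((L + 1) * (2 : ℝ) ^ k) := by
    calc ((n : ℝ) + 1) ^ (2 ^ k - 1) ≤ ((n : ℝ) + 1) ^ (2 ^ k) :=
          pow_le_pow_right₀ (by linarith) (Nat.sub_le _ _)
      _ ≤ ((2 : ℝ) ^ (L + 1)) ^ (2 ^ k) := pow_le_pow_left₀ (by linarith) v1 _
      _ = (2 : ℝ) ^ ((L + 1) * (2 : ℝ) ^ k) := by
          rw [← Real.rpow_natCast, ← Real.rpow_mul (by norm_num)]
          push_cast
          rfl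
  have v3 : (2 : ℝ) ^ (98 * k ^ 3) = (2 : ℝ) ^ (98 * (k : ℝ) ^ 3) := by
    rw [← Real.rpow_natCast]
    push_cast
    rfl
  have v4 : (2 : ℝ) ^ k ≤ 2 * (n : ℝ) ^ A := by
    rw [sm_pow_lg hn0, ← Real.rpow_natCast 2 k]
    calc (2 : ℝ) ^ (k : ℝ) ≤ (2 : ℝ) ^ (1 + A * L) := Real.rpow_le_rpow_of_exponent_le (by norm_num) (by linarith)
      _ = _ := by rw [Real.rpow_add (by norm_num), Real.rpow_one]
  calc (2 : ℝ) ^ (98 * k ^ 3) * ((n : ℝ) + 1) ^ (2 ^ k - 1)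
      ≤ (2 : ℝ) ^ (98 * (k : ℝ) ^ 3) * (2 : ℝ) ^ ((L + 1) * (2 : ℝ) ^ k) := by
        rw [v3]
        exact mul_le_mul_of_nonneg_left v2 (by positivity)
    _ = (2 : ℝ) ^ (98 * (k : ℝ) ^ 3 + (L + 1) * (2 : ℝ) ^ k) := (Real.rpow_add (by norm_num) _ _).symm
    _ ≤ _ := by
        refine Real.rpow_le_rpow_of_exponent_le (by norm_num) ?_
        have w1 : (k : ℝ) ^ 3 ≤ (L + 1) ^ 3 := pow_le_pow_left₀ (Nat.cast_nonneg _) k4 3
        have w2 : 1 ≤ (n : ℝ) ^ A := Real.one_le_rpow hnR h0.le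
        have w3 : (L + 1) * (2 : ℝ) ^ k ≤ (L + 1) ^ 3 * (2 * (n : ℝ) ^ A) :=
          mul_le_mul hL1 v4 (by positivity) (by positivity)
        have w4 : 0 ≤ (L + 1) ^ 3 := by positivity
        have w5 : 98 * (k : ℝ) ^ 3 ≤ (98 * (L + 1) ^ 3) * (n : ℝ) ^ A := by
          have : 98 * (L + 1) ^ 3 * 1 ≤ (98 * (L + 1) ^ 3) * (n : ℝ) ^ A :=
            mul_le_mul_of_nonneg_left w2 (by positivity)
          linarith
        calc 98 * (k : ℝ) ^ 3 + (L + 1) * (2 : ℝ) ^ k ≤ (100 * (L + 1) ^ 3) * (n : ℝ) ^ A := by linarith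
          _ ≤ (n : ℝ) ^ ε * (n : ℝ) ^ A := mul_le_mul_of_nonneg_right e1 (by positivity)
          _ = (n : ℝ) ^ (A + ε) := by
              rw [← Real.rpow_add (by linarith)]
              congr 1
              ring

theorem small_low (A : ℝ) (h0 : 0 < A) (h1 : A < 1) (ε : ℝ) (hε : 0 < ε) : ∀ᶠ n : ℕ in atTop,
    (2 : ℝ) ^ ((n : ℝ) ^ (A - ε)) ≤ above n ((2 : ℝ) ^ n / (n : ℝ) ^ A) := by
  obtain ⟨b, c, h, D, _, hb, hc, hbc⟩ := exists_code (ε / 2) (by positivity)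
  obtain ⟨r₀, hr⟩ := ra_r0 b hc
  have hb0 : 0 < b := by omega
  have hbR : (0 : ℝ) < b := by exact_mod_cast hb0
  have hcR : (2 : ℝ) ≤ c := by exact_mod_cast hc
  have hcb : c ≤ 2 ^ b := by
    have h1 := Fintype.card_le_of_injective D.dg D.inj
    simpa using h1
  filter_upwards [sm_ev (2 ^ (b + 3) + 4) (1 - A) (by linarith), sm_lg.eventually_ge_atTop (2 * (4 + b) / ε),
    sm_lg.eventually_ge_atTop ((4 + (r₀ + 1) * b) / A), sm_lg.eventually_ge_atTop 1,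
    eventually_ge_atTop 2] with n e1 e2 e3 e4 e5
  have hn0 : 0 < n := by omega
  have hnR : (1 : ℝ) ≤ n := by exact_mod_cast (by omega : 1 ≤ n)
  set L := Real.logb 2 (n : ℝ) with hL
  rw [div_le_iff₀ hε] at e2
  rw [div_le_iff₀ h0] at e3
  have hAL : 0 ≤ A * L := by positivity
  set R := ⌊(A * L - 4) / b⌋₊ with hR
  have hnum : (0 : ℝ) ≤ (A * L - 4) / b := by
    refine div_nonneg ?_ hbR.le
    have : (0 : ℝ) ≤ (r₀ + 1) * b := by positivity
    linarith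
  have R1 : (R : ℝ) * b ≤ A * L - 4 := by
    have := Nat.floor_le hnum
    rwa [← hR, le_div_iff₀ hbR] at this
  have R2 : A * L - 4 < (R + 1) * b := by
    have := Nat.lt_floor_add_one ((A * L - 4) / b)
    rwa [← hR, div_lt_iff₀ hbR] at this
  have R3 : r₀ + 1 ≤ R := by
    refine Nat.le_floor ?_
    rw [le_div_iff₀ hbR]
    push_cast
    linarith
  set Y := ⌊A * L⌋₊ - 1 with hY
  have Y0 : (⌊A * L⌋₊ : ℝ) ≤ A * L := Nat.floor_le hAL
  have Y1 : A * L < (⌊A * L⌋₊ : ℝ) + 1 := Nat.lt_floor_add_one _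
  have Yf : 4 ≤ ⌊A * L⌋₊ := by
    refine Nat.le_floor ?_
    have : (0 : ℝ) ≤ (R : ℝ) * b := by positivity
    push_cast
    linarith
  have Yr : (Y : ℝ) = (⌊A * L⌋₊ : ℝ) - 1 := by
    rw [hY, Nat.cast_sub (by omega), Nat.cast_one]
  -- sizes
  have hcR1 : (c : ℝ) ^ R ≤ (n : ℝ) ^ A := by
    have h2 : (c : ℝ) ≤ (2 : ℝ) ^ b := by exact_mod_cast hcb
    calc (c : ℝ) ^ R ≤ ((2 : ℝ) ^ b) ^ R := pow_le_pow_left₀ (by positivity) h2 R
      _ = (2 : ℝ) ^ ((R : ℝ) * b) := by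
          rw [← pow_mul, ← Real.rpow_natCast]
          push_cast
          rw [mul_comm]
      _ ≤ (2 : ℝ) ^ (A * L) := Real.rpow_le_rpow_of_exponent_le (by norm_num) (by linarith)
      _ = (n : ℝ) ^ A := (sm_pow_lg hn0 A).symm
  have hAn : 1 ≤ (n : ℝ) ^ A := Real.one_le_rpow hnR h0.le
  have hL3 : 1 ≤ (L + 1) ^ 3 := one_le_pow₀ (by linarith)
  have hL4 : L + 1 ≤ (L + 1) ^ 3 := by nlinarith [sq_nonneg L, sq_nonneg (L + 1)]
  have hfit : ((2 : ℝ) ^ (b + 3) + 4) * (L + 1) ^ 3 * (n : ℝ) ^ A ≤ n := by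
    calc _ ≤ (n : ℝ) ^ (1 - A) * (n : ℝ) ^ A := mul_le_mul_of_nonneg_right e1 (by positivity)
      _ = n := by
          rw [← Real.rpow_add (by linarith)]
          have : 1 - A + A = 1 := by ring
          rw [this, Real.rpow_one]
  have hbig : (2 : ℝ) ^ (b + 3) * (c : ℝ) ^ R + 2 * (L + 1) ≤ n := by
    have f1 : (2 : ℝ) ^ (b + 3) * (c : ℝ) ^ R ≤ (2 : ℝ) ^ (b + 3) * ((L + 1) ^ 3 * (n : ℝ) ^ A) := by
      refine mul_le_mul_of_nonneg_left (hcR1.trans ?_) (by positivity)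
      have := mul_le_mul_of_nonneg_right hL3 (show (0 : ℝ) ≤ (n : ℝ) ^ A by positivity)
      linarith
    have f2 : 2 * (L + 1) ≤ 4 * ((L + 1) ^ 3 * (n : ℝ) ^ A) := by
      have : (L + 1) * 1 ≤ (L + 1) ^ 3 * (n : ℝ) ^ A := mul_le_mul hL4 hAn (by norm_num) (by positivity)
      have g : 0 ≤ (L + 1) ^ 3 * (n : ℝ) ^ A := by positivity
      linarith
    have e : ((2 : ℝ) ^ (b + 3) + 4) * (L + 1) ^ 3 * (n : ℝ) ^ A =
        (2 : ℝ) ^ (b + 3) * ((L + 1) ^ 3 * (n : ℝ) ^ A) + 4 * ((L + 1) ^ 3 * (n : ℝ) ^ A) := by ring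
    rw [e] at hfit
    linarith
  have hAL1 : A * L ≤ L := by nlinarith
  have Yn : Y ≤ n := by
    have h2 : (0 : ℝ) ≤ (2 : ℝ) ^ (b + 3) * (c : ℝ) ^ R := by positivity
    have : (Y : ℝ) ≤ n := by rw [Yr]; linarith
    exact_mod_cast this
  have hPc := P_le D hc R
  have hK : P D R + R * b + 1 ≤ n - Y := by
    have h2 : P D R + R * b + 1 + Y ≤ n := by
      have h3 : ((P D R + R * b + 1 + Y : ℕ) : ℝ) ≤ n := by
        have h4 : (P D R : ℝ) ≤ (2 : ℝ) ^ (b + 3) * (c : ℝ) ^ R := by exact_mod_cast hPc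
        push_cast
        rw [Yr]
        linarith
      exact_mod_cast h3
    omega
  clear hR
  clear_value R
  obtain ⟨r, rfl⟩ : ∃ r, R = r + 1 := ⟨R - 1, by omega⟩
  have hrr : (r + 1) * b ≤ c ^ r := by
    have h2 := hr r (by omega)
    have : (r + 2) * b = (r + 1) * b + b := by ring
    omega
  have st := reach_step D (K := n - Y) (S := 0) (y := 0) (r := r) (t := 1) hb (by omega) hrr (by omega)
    (reach_zero (n - Y)) (Or.inr (by simpa using hK))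
  have hy : 0 + ((r + 1) * b + 1) ≤ Y := by
    have h2 : (((r + 1) * b + 1 : ℕ) : ℝ) ≤ Y := by
      push_cast at R1 ⊢
      rw [Yr]
      linarith
    have h3 : (r + 1) * b + 1 ≤ Y := by exact_mod_cast h2
    omega
  have cnt := profile_count st hy (Nat.sub_add_cancel Yn)
  have hx : (2 : ℝ) ^ n / (n : ℝ) ^ A + 1 ≤ ((2 ^ (n - Y) : ℕ) : ℝ) := by
    have hpos : 0 < (n : ℝ) ^ A := by linarith
    have h2 : 2 * (2 : ℝ) ^ Y ≤ (n : ℝ) ^ A := by
      rw [sm_pow_lg hn0]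
      calc 2 * (2 : ℝ) ^ Y = (2 : ℝ) ^ ((Y : ℝ) + 1) := by
            rw [Real.rpow_add (by norm_num), Real.rpow_one, Real.rpow_natCast, mul_comm]
        _ ≤ _ := Real.rpow_le_rpow_of_exponent_le (by norm_num) (by rw [Yr]; linarith)
    have h3 : (2 : ℝ) ^ (n - Y) * (2 : ℝ) ^ Y = 2 ^ n := by rw [← pow_add, Nat.sub_add_cancel Yn]
    have h4 : (2 : ℝ) ^ n / (n : ℝ) ^ A ≤ (2 : ℝ) ^ (n - Y) / 2 := by
      rw [div_le_div_iff₀ hpos (by norm_num)]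
      have : (2 : ℝ) ^ (n - Y) * (2 * (2 : ℝ) ^ Y) ≤ (2 : ℝ) ^ (n - Y) * (n : ℝ) ^ A :=
        mul_le_mul_of_nonneg_left h2 (by positivity)
      linarith
    have h5 : (2 : ℝ) ≤ (2 : ℝ) ^ (n - Y) := by
      calc (2 : ℝ) = 2 ^ 1 := by norm_num
        _ ≤ 2 ^ (n - Y) := pow_le_pow_right₀ (by norm_num) (by omega)
    push_cast
    linarith
  have fin : {N ∈ vals n | 2 ^ (n - Y) ≤ N}.ncard ≤ above n ((2 : ℝ) ^ n / (n : ℝ) ^ A) := by
    refine le_trans (Set.ncard_le_ncard ?_ ((vals_finite n).subset (Set.sep_subset _ _))) (le_above n _)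
    rintro N ⟨g1, g2⟩
    refine ⟨g1, hx.trans ?_⟩
    exact_mod_cast g2
  have tot : 2 ^ (0 + 1 * c ^ (r + 1)) ≤ above n ((2 : ℝ) ^ n / (n : ℝ) ^ A) := cnt.trans fin
  have tot' : (2 : ℝ) ^ (c ^ (r + 1)) ≤ (above n ((2 : ℝ) ^ n / (n : ℝ) ^ A) : ℝ) := by
    have : 0 + 1 * c ^ (r + 1) = c ^ (r + 1) := by ring
    rw [this] at tot
    exact_mod_cast tot
  refine le_trans ?_ tot'
  rw [← Real.rpow_natCast]
  refine Real.rpow_le_rpow_of_exponent_le (by norm_num) ?_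
  push_cast
  -- `n ^ (A - ε) ≤ c ^ (r + 1)`
  set l := Real.logb 2 (c : ℝ) with hl
  have hc0 : (0 : ℝ) < c := by linarith
  have hl1 : 1 ≤ l := by
    rw [hl, Real.le_logb_iff_rpow_le (by norm_num) hc0, Real.rpow_one]
    exact hcR
  have hcp : (c : ℝ) ^ (r + 1) = (2 : ℝ) ^ (((r : ℝ) + 1) * l) := by
    rw [mul_comm, Real.rpow_mul (by norm_num), hl, Real.rpow_logb (by norm_num) (by norm_num) hc0]
    rw [← Real.rpow_natCast]
    push_cast
    rfl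
  rw [hcp, sm_pow_lg hn0]
  refine Real.rpow_le_rpow_of_exponent_le (by norm_num) ?_
  push_cast at R2
  -- `(A L - 4 - b) ≤ (r + 1) b ≤ (r + 1) (1 + ε / 2) l`
  have g1 : A * L - 4 - b ≤ ((r : ℝ) + 1) * ((1 + ε / 2) * l) := by
    have : ((r : ℝ) + 1) * b ≤ ((r : ℝ) + 1) * ((1 + ε / 2) * l) :=
      mul_le_mul_of_nonneg_left hbc (by positivity)
    linarith
  have g2 : (A - ε) * L * (1 + ε / 2) ≤ A * L - 4 - b := by
    nlinarith [mul_pos hε hε, mul_nonneg hε.le (show (0 : ℝ) ≤ L by linarith),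
      mul_nonneg (mul_nonneg hε.le hε.le) (show (0 : ℝ) ≤ L by linarith),
      mul_nonneg (mul_nonneg hε.le (sub_nonneg.2 h1.le)) (show (0 : ℝ) ≤ L by linarith)]
  have g3 : (A - ε) * L * (1 + ε / 2) ≤ (((r : ℝ) + 1) * l) * (1 + ε / 2) := by
    have : ((r : ℝ) + 1) * ((1 + ε / 2) * l) = (((r : ℝ) + 1) * l) * (1 + ε / 2) := by ring
    linarith
  exact le_of_mul_le_mul_right g3 (by positivity)

end Pool.Agent.Helper86.ST
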