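import Pool.Agent.Helper86.ST.Fin
import Pool.Agent.CliqueSharp.Final

set_option autoImplicit false

open Finset Filter Topology
open Pool.Agent.CliqueCount (clq vals)
open Pool.Agent.CliqueSharp.Final (S above above_le vals_finite)

namespace Pool.Agent.Helper86.ST

lemma poly_exp (K t : ℕ) (ht : 1 ≤ t) : ∀ᶠ u : ℕ in atTop, K * u ^ 2 < 2 ^ (u / t) := by
  have h1 := tendsto_pow_const_div_const_pow_of_one_lt 2 (show (1 : ℝ) < 2 by norm_num)
  have h2 : ∀ᶠ v : ℕ in atTop, K * (t * (v + 1)) ^ 2 < 2 ^ v := by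
    have h3 := h1.eventually_lt_const (show (0 : ℝ) < 1 / (4 * K * t ^ 2 + 1) by positivity)
    filter_upwards [h3, eventually_ge_atTop 1] with v hv hv1
    rw [div_lt_div_iff₀ (by positivity) (by positivity), one_mul] at hv
    have h4 : v ^ 2 * (4 * K * t ^ 2 + 1) < 2 ^ v := by exact_mod_cast hv
    calc K * (t * (v + 1)) ^ 2 ≤ K * (t * (v + v)) ^ 2 := by gcongr
      _ ≤ v ^ 2 * (4 * K * t ^ 2 + 1) := by nlinarith
      _ < 2 ^ v := h4
  have h3 : Tendsto (fun u : ℕ => u / t) atTop atTop := by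
    refine tendsto_atTop_atTop.2 fun b => ⟨b * t, fun a ha => ?_⟩
    exact (Nat.le_div_iff_mul_le (by omega)).2 ha
  filter_upwards [h3.eventually h2] with u hu
  refine lt_of_le_of_lt ?_ hu
  have h5 : u < t * (u / t + 1) := Nat.lt_mul_div_succ u (by omega)
  gcongr

/-- the code length of a pattern -/
def ee (C₀ u : ℕ) : ℕ := Nat.log 2 (C₀ * u) + 1

/-- the logarithm of the ratio of consecutive scales -/
def rr (C₀ t u : ℕ) : ℕ := Nat.log 2 (32 * C₀ ^ 2 * t * ee C₀ u * u) + 1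

lemma rr_le {C₀ t u : ℕ} (hC : 1 ≤ C₀) (ht : 1 ≤ t) (hu : 1 ≤ u) :
    2 ^ rr C₀ t u ≤ 64 * C₀ ^ 2 * t * ee C₀ u * u := by
  have h0 : 32 * C₀ ^ 2 * t * ee C₀ u * u ≠ 0 := by
    have : 0 < C₀ ^ 2 * t * ee C₀ u * u := by unfold ee; positivity
    intro h
    have e : 32 * C₀ ^ 2 * t * ee C₀ u * u = 32 * (C₀ ^ 2 * t * ee C₀ u * u) := by ring
    omega
  have h1 := Nat.pow_log_le_self 2 h0
  unfold rr
  rw [pow_succ]
  calc 2 ^ Nat.log 2 (32 * C₀ ^ 2 * t * ee C₀ u * u) * 2 ≤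
        (32 * C₀ ^ 2 * t * ee C₀ u * u) * 2 := Nat.mul_le_mul_right _ h1
    _ = _ := by ring

lemma le_rr (C₀ t u : ℕ) : 32 * C₀ ^ 2 * t * ee C₀ u * u ≤ 2 ^ rr C₀ t u :=
  (Nat.lt_pow_succ_log_self (by norm_num) _).le

lemma le_ee (C₀ u : ℕ) : C₀ * u ≤ 2 ^ ee C₀ u :=
  (Nat.lt_pow_succ_log_self (by norm_num) _).le

lemma rr_small {C₀ t : ℕ} (hC : 1 ≤ C₀) (ht : 1 ≤ t) (M : ℕ) :
    ∀ᶠ u : ℕ in atTop, M * rr C₀ t u ≤ u := by
  rcases Nat.eq_zero_or_pos M with rfl | hM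
  · exact Eventually.of_forall fun u => by simp
  filter_upwards [poly_exp (64 * C₀ ^ 2 * t * (C₀ + 1)) M hM, eventually_ge_atTop 1] with u hu hu1
  have h1 : ee C₀ u ≤ (C₀ + 1) * u := by
    unfold ee
    have : Nat.log 2 (C₀ * u) ≤ C₀ * u := Nat.log_le_self _ _
    nlinarith
  have h2 : 2 ^ rr C₀ t u < 2 ^ (u / M) := by
    refine lt_of_le_of_lt (rr_le hC ht hu1) (lt_of_le_of_lt ?_ hu)
    calc 64 * C₀ ^ 2 * t * ee C₀ u * u ≤ 64 * C₀ ^ 2 * t * ((C₀ + 1) * u) * u := by gcongr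
      _ = _ := by ring
  have h3 := (Nat.pow_lt_pow_iff_right (by norm_num)).1 h2
  calc M * rr C₀ t u ≤ M * (u / M) := Nat.mul_le_mul_left _ h3.le
    _ ≤ u := Nat.mul_div_le _ _

lemma log_tendsto : Tendsto (fun n : ℕ => Nat.log 2 n) atTop atTop := by
  refine tendsto_atTop_atTop.2 fun b => ⟨2 ^ b, fun a ha => ?_⟩
  exact (Nat.le_log_iff_pow_le (by norm_num) (by
    have := Nat.one_le_two_pow (n := b)
    omega)).2 ha

/-- the upper bound at the polynomial scale -/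
theorem up (A : ℝ) (j : ℕ) (hj : 1 ≤ j) (hA0 : 0 < A) (hA : A < j + 1) :
    ∃ C : ℝ, 0 < C ∧ ∀ᶠ n : ℕ in atTop, (above n ((2 : ℝ) ^ n / (n : ℝ) ^ A) : ℝ) ≤
      (2 : ℝ) ^ ((n : ℝ) - n / (C * Real.logb 2 n * Real.logb 2 (Real.logb 2 n)) ^ j) := by
  obtain ⟨γ, hγ⟩ : ∃ γ, γ = (j + 1 - A) / 2 := ⟨_, rfl⟩
  have hγ0 : 0 < γ := by rw [hγ]; linarith
  obtain ⟨t, ht⟩ := exists_nat_gt (2 * ((j : ℝ) + 1) / γ)
  have ht' : 2 * ((j : ℝ) + 1) < γ * t := by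
    rw [div_lt_iff₀ hγ0] at ht
    linarith
  have ht4 : 4 ≤ t := by
    have h1 : γ < ((j : ℝ) + 1) / 2 := by rw [hγ]; linarith
    have h2 : 4 * (((j : ℝ) + 1) / 2) < ((j : ℝ) + 1) / 2 * t := by
      have h0 : (0 : ℝ) ≤ t := Nat.cast_nonneg _
      nlinarith
    have h3 : (4 : ℝ) < t := by
      have h0 : (0 : ℝ) < ((j : ℝ) + 1) / 2 := by positivity
      nlinarith
    exact_mod_cast h3.le
  obtain ⟨C₀, hC₀⟩ : ∃ C₀, C₀ = 48 * j + 74 := ⟨_, rfl⟩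
  obtain ⟨M, hM⟩ := exists_nat_gt ((2 + ((j : ℝ) + 1) * j) / γ)
  rw [div_lt_iff₀ hγ0] at hM
  have F1 := poly_exp 32 t (by omega)
  have F2 := rr_small (C₀ := C₀) (t := t) (by omega) (by omega) (2 * (3 + j))
  have F3 := poly_exp (16 * C₀ ^ 2) 2 (by norm_num)
  have F4 := rr_small (C₀ := C₀) (t := t) (by omega) (by omega) M
  have hll : Tendsto (fun n : ℕ => Real.logb 2 (Real.logb 2 (n : ℝ))) atTop atTop :=
    (Real.tendsto_logb_atTop (by norm_num)).comp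
      ((Real.tendsto_logb_atTop (by norm_num)).comp tendsto_natCast_atTop_atTop)
  obtain ⟨C₁, hC₁⟩ : ∃ C₁ : ℝ, C₁ = 64 * C₀ ^ 2 * t * (2 + Real.logb 2 C₀) := ⟨_, rfl⟩
  have hC₀R : (1 : ℝ) ≤ C₀ := by exact_mod_cast (by omega : 1 ≤ C₀)
  have hlogC : 0 ≤ Real.logb 2 C₀ := Real.logb_nonneg (by norm_num) hC₀R
  have hC₁0 : 0 < C₁ := by
    rw [hC₁]
    have : (0 : ℝ) < t := by exact_mod_cast (by omega : 0 < t)
    positivity
  refine ⟨8 * C₁, by positivity, ?_⟩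
  filter_upwards [log_tendsto.eventually F1, log_tendsto.eventually F2, log_tendsto.eventually F3,
    log_tendsto.eventually F4, log_tendsto.eventually (eventually_ge_atTop (2 * j + 4)),
    hll.eventually_ge_atTop 1, eventually_ge_atTop 1] with n f1 f2 f3 f4 f5 f6 f7
  obtain ⟨u, hu⟩ : ∃ u, u = Nat.log 2 n := ⟨_, rfl⟩
  rw [← hu] at f1 f2 f3 f4 f5
  obtain ⟨ρ, hρ⟩ : ∃ ρ, ρ = rr C₀ t u := ⟨_, rfl⟩
  rw [← hρ] at f2 f4
  have hn1 : 2 ^ u ≤ n := by rw [hu]; exact Nat.pow_log_le_self 2 (by omega)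
  have hn2 : n + 1 ≤ 2 ^ (u + 1) := by rw [hu]; exact Nat.lt_pow_succ_log_self (by norm_num) n
  have hρ1 : 1 ≤ ρ := by rw [hρ]; unfold rr; omega
  obtain ⟨x, hx⟩ : ∃ x, x = ⌈A * (u + 1)⌉₊ := ⟨_, rfl⟩
  have hx1 : A * (u + 1) ≤ x := by rw [hx]; exact Nat.le_ceil _
  have hx2 : (x : ℝ) < A * (u + 1) + 1 := by rw [hx]; exact Nat.ceil_lt_add_one (by positivity)
  have hx3 : x ≤ (j + 1) * (u + 1) := by
    rw [hx]
    apply Nat.ceil_le.2
    push_cast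
    exact mul_le_mul_of_nonneg_right hA.le (by positivity)
  have hxn : x ≤ n := by
    have h1 : 16 * (C₀ * u) ^ 2 < 2 ^ u := by
      calc 16 * (C₀ * u) ^ 2 = 16 * C₀ ^ 2 * u ^ 2 := by ring
        _ < 2 ^ (u / 2) := f3
        _ ≤ 2 ^ u := Nat.pow_le_pow_right (by norm_num) (Nat.div_le_self _ _)
    have h2 : (j + 1) * (u + 1) ≤ 16 * (C₀ * u) ^ 2 := by
      have h3 : (j + 1) * (u + 1) ≤ C₀ * u * 1 := by
        have : u + 1 ≤ 2 * u := by omega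
        calc (j + 1) * (u + 1) ≤ (j + 1) * (2 * u) := Nat.mul_le_mul_left _ this
          _ = (2 * j + 2) * u := by ring
          _ ≤ C₀ * u := Nat.mul_le_mul_right _ (by omega)
          _ = _ := by ring
      have h4 : 1 ≤ C₀ * u := Nat.mul_pos (by omega) (by omega)
      nlinarith
    omega
  have ht2 : 2 * (u / t) ≤ u / 2 := by
    have h1 : u / t ≤ u / 4 := Nat.div_le_div_left ht4 (by norm_num)
    omega
  have hρj : ρ * (3 + j) ≤ u / 2 := by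
    rw [Nat.le_div_iff_mul_le (by norm_num)]
    calc ρ * (3 + j) * 2 = 2 * (3 + j) * ρ := by ring
      _ ≤ u := f2
  have hρj' : ρ * j ≤ u / 2 := le_trans (Nat.mul_le_mul_left _ (by omega)) hρj
  have hbig : 16 * (C₀ * u) ^ 2 ≤ 2 ^ (u - ρ * j) := by
    calc 16 * (C₀ * u) ^ 2 = 16 * C₀ ^ 2 * u ^ 2 := by ring
      _ ≤ 2 ^ (u / 2) := f3.le
      _ ≤ 2 ^ (u - ρ * j) := Nat.pow_le_pow_right (by norm_num) (by omega)
  have hsum : x < (j + 1) * (u - ρ * j - 2 * (u / t) + 1) := by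
    have h1 : ((u - ρ * j - 2 * (u / t) : ℕ) : ℝ) = (u : ℝ) - ρ * j - 2 * ((u / t : ℕ) : ℝ) := by
      rw [Nat.cast_sub (by omega), Nat.cast_sub (by omega)]
      push_cast
      ring
    have h2 : ((u / t : ℕ) : ℝ) ≤ (u : ℝ) / t := Nat.cast_div_le
    have htR : (0 : ℝ) < t := by exact_mod_cast (by omega : 0 < t)
    have huR : (0 : ℝ) < u := by exact_mod_cast (by omega : 0 < u)
    have h3 : 2 * ((j : ℝ) + 1) * ((u : ℝ) / t) ≤ γ * u := by
      rw [mul_div_assoc', div_le_iff₀ htR]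
      nlinarith
    have h4 : (M : ℝ) * ρ ≤ u := by exact_mod_cast f4
    have hρR : (1 : ℝ) ≤ ρ := by exact_mod_cast hρ1
    have h5 : 1 + ((j : ℝ) + 1) * j * ρ < γ * u := by
      calc 1 + ((j : ℝ) + 1) * j * ρ < (2 + ((j : ℝ) + 1) * j) * ρ := by nlinarith
        _ ≤ (M * γ) * ρ := by nlinarith
        _ = γ * (M * ρ) := by ring
        _ ≤ γ * u := mul_le_mul_of_nonneg_left h4 hγ0.le
    have h6 : (x : ℝ) < (j + 1) * ((u : ℝ) - ρ * j - 2 * ((u / t : ℕ) : ℝ) + 1) := by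
      have h7 : A = j + 1 - 2 * γ := by rw [hγ]; ring
      have h8 : 2 * ((j : ℝ) + 1) * ((u / t : ℕ) : ℝ) ≤ γ * u :=
        le_trans (mul_le_mul_of_nonneg_left h2 (by positivity)) h3
      rw [h7] at hx2
      nlinarith
    rw [← h1] at h6
    exact_mod_cast h6
  have key := count_fin (n := n) (u := u) (x := x) (j := j) (C₀ := C₀) (t := t) (e := ee C₀ u)
    (ρ := ρ) hn1 hn2 (by
      calc 24 * x + 25 + u ≤ 24 * ((j + 1) * (u + 1)) + 25 + u := by omega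
        _ ≤ 24 * ((j + 1) * (2 * u)) + 25 * u + u := by
          have h1 : (j + 1) * (u + 1) ≤ (j + 1) * (2 * u) := Nat.mul_le_mul_left _ (by omega)
          omega
        _ = C₀ * u := by rw [hC₀]; ring) (le_ee C₀ u) (by unfold ee; omega) (by omega) (by omega)
      (by rw [hρ]; exact le_rr C₀ t u)
      (by
        refine le_trans ?_ f1.le
        have : 1 ≤ u := by omega
        nlinarith) (by omega) hbig hsum hxn
  -- threshold
  have hnR : (0 : ℝ) < n := by exact_mod_cast f7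
  have hthr : (2 : ℝ) ^ (n - x) ≤ (2 : ℝ) ^ n / (n : ℝ) ^ A := by
    rw [le_div_iff₀ (Real.rpow_pos_of_pos hnR _)]
    have h1 : (n : ℝ) ≤ (2 : ℝ) ^ ((u : ℝ) + 1) := by
      have : (n : ℝ) ≤ (2 : ℝ) ^ (u + 1) := by exact_mod_cast (by omega : n ≤ 2 ^ (u + 1))
      rw [← Real.rpow_natCast] at this
      exact_mod_cast this
    have h2 : (n : ℝ) ^ A ≤ (2 : ℝ) ^ x := by
      calc (n : ℝ) ^ A ≤ ((2 : ℝ) ^ ((u : ℝ) + 1)) ^ A := Real.rpow_le_rpow hnR.le h1 hA0.le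
        _ = (2 : ℝ) ^ (((u : ℝ) + 1) * A) := by rw [← Real.rpow_mul (by norm_num)]
        _ ≤ (2 : ℝ) ^ (x : ℝ) := Real.rpow_le_rpow_of_exponent_le (by norm_num) (by linarith)
        _ = (2 : ℝ) ^ x := Real.rpow_natCast _ _
    calc (2 : ℝ) ^ (n - x) * (n : ℝ) ^ A ≤ (2 : ℝ) ^ (n - x) * (2 : ℝ) ^ x := by gcongr
      _ = (2 : ℝ) ^ n := by rw [← pow_add]; congr 1; omega
  have habove : above n ((2 : ℝ) ^ n / (n : ℝ) ^ A) ≤ {N ∈ vals n | 2 ^ (n - x) ≤ N}.ncard := by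
    refine (above_le n _).trans (Set.ncard_le_ncard ?_ ((vals_finite n).subset fun N hN => hN.1))
    rintro N ⟨h1, h2⟩
    exact ⟨h1, by exact_mod_cast hthr.trans h2⟩
  -- the final inequality
  have huj1 : 1 ≤ u - ρ * j := by omega
  have hdiv : 2 ^ (u - ρ * j) / 2 = 2 ^ (u - ρ * j - 1) := by
    obtain ⟨v, hv⟩ : ∃ v, u - ρ * j = v + 1 := ⟨u - ρ * j - 1, by omega⟩
    rw [hv, pow_succ, Nat.mul_div_cancel _ (by norm_num), Nat.add_sub_cancel]
  rw [hdiv] at key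
  obtain ⟨T, hT⟩ : ∃ T, T = 2 ^ (u - ρ * j - 1) := ⟨_, rfl⟩
  have hTn : T ≤ n := by
    rw [hT]
    exact (Nat.pow_le_pow_right (by norm_num) (by omega)).trans hn1
  have hT2 : 2 * j ≤ T := by
    have h1 : 2 ^ (u - ρ * j) = 2 * T := by
      rw [hT, ← pow_succ']
      congr 1
      omega
    rw [h1] at hbig
    have h2 : j ≤ (C₀ * u) ^ 2 := by
      have h3 : j ≤ C₀ * u := by
        calc j ≤ C₀ * 1 := by omega
          _ ≤ C₀ * u := Nat.mul_le_mul_left _ (by omega)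
      nlinarith
    omega
  rw [← hT] at key
  have hj2 : ((j + 1 : ℕ) : ℝ) ≤ (2 : ℝ) ^ (j : ℝ) := by
    rw [Real.rpow_natCast]
    exact_mod_cast (Nat.lt_two_pow_self (n := j))
  have hfin : (above n ((2 : ℝ) ^ n / (n : ℝ) ^ A) : ℝ) ≤ (2 : ℝ) ^ ((j : ℝ) + ((n : ℝ) - T)) := by
    have h1 : (above n ((2 : ℝ) ^ n / (n : ℝ) ^ A) : ℝ) ≤ (((j + 1) * 2 ^ (n - T) : ℕ) : ℝ) := by
      exact_mod_cast habove.trans key
    refine h1.trans ?_
    rw [Real.rpow_add (by norm_num), Nat.cast_mul, ← Nat.cast_sub hTn, Real.rpow_natCast 2 (n - T)]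
    push_cast
    push_cast at hj2
    gcongr
  refine hfin.trans (Real.rpow_le_rpow_of_exponent_le (by norm_num) ?_)
  obtain ⟨l, hl⟩ : ∃ l, l = Real.logb 2 (n : ℝ) := ⟨_, rfl⟩
  rw [← hl] at f6 ⊢
  obtain ⟨ll, hlll⟩ : ∃ ll, ll = Real.logb 2 l := ⟨_, rfl⟩
  rw [← hlll] at f6 ⊢
  have hul : (u : ℝ) ≤ l := by
    rw [hl, Real.le_logb_iff_rpow_le (by norm_num) hnR, Real.rpow_natCast]
    exact_mod_cast hn1
  have huR : (1 : ℝ) ≤ u := by exact_mod_cast (by omega : 1 ≤ u)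
  have hee : (ee C₀ u : ℝ) ≤ (2 + Real.logb 2 C₀) * ll := by
    have h1 : ((Nat.log 2 (C₀ * u) : ℕ) : ℝ) ≤ Real.logb 2 ((C₀ * u : ℕ) : ℝ) := by
      rw [Real.le_logb_iff_rpow_le (by norm_num) (by
        exact_mod_cast Nat.mul_pos (by omega) (by omega)), Real.rpow_natCast]
      exact_mod_cast Nat.pow_log_le_self 2 (by
        have := Nat.mul_pos (show 0 < C₀ by omega) (show 0 < u by omega)
        omega)
    have h2 : Real.logb 2 ((C₀ * u : ℕ) : ℝ) = Real.logb 2 C₀ + Real.logb 2 u := by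
      push_cast
      exact Real.logb_mul (by linarith) (by linarith)
    have h3 : Real.logb 2 u ≤ ll := by
      rw [hlll]
      exact Real.logb_le_logb_of_le (by norm_num) (by linarith) hul
    unfold ee
    push_cast
    rw [h2] at h1
    nlinarith
  have hρ2 : (2 : ℝ) ^ ρ ≤ C₁ * l * ll := by
    have h1 : ((2 ^ ρ : ℕ) : ℝ) ≤ ((64 * C₀ ^ 2 * t * ee C₀ u * u : ℕ) : ℝ) := by
      rw [hρ]
      exact_mod_cast rr_le (by omega) (by omega) (by omega)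
    push_cast at h1
    refine h1.trans ?_
    calc (64 : ℝ) * C₀ ^ 2 * t * ee C₀ u * u
        ≤ 64 * C₀ ^ 2 * t * ((2 + Real.logb 2 C₀) * ll) * l := by gcongr
      _ = C₁ * l * ll := by rw [hC₁]; ring
  have hTR : (n : ℝ) ≤ 4 * (C₁ * l * ll) ^ j * T := by
    have h1 : (n : ℝ) ≤ (2 : ℝ) ^ (u + 1) := by exact_mod_cast (by omega : n ≤ 2 ^ (u + 1))
    have h2 : (2 : ℝ) ^ (u + 1) = 4 * ((2 : ℝ) ^ ρ) ^ j * T := by
      rw [hT]
      push_cast
      rw [← pow_mul, show (4 : ℝ) = 2 ^ 2 by norm_num, ← pow_add, ← pow_add]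
      congr 1
      omega
    rw [h2] at h1
    refine h1.trans ?_
    gcongr
  have hΛ : 0 < C₁ * l * ll := by
    have : 0 < l := by linarith
    positivity
  have h8 : (8 : ℝ) * (C₁ * l * ll) ^ j ≤ (8 * C₁ * l * ll) ^ j := by
    have e : 8 * C₁ * l * ll = 8 * (C₁ * l * ll) := by ring
    rw [e, mul_pow 8 (C₁ * l * ll) j]
    have h9 : (8 : ℝ) ^ 1 ≤ 8 ^ j := pow_le_pow_right₀ (by norm_num) hj
    rw [pow_one] at h9
    exact mul_le_mul_of_nonneg_right h9 (by positivity)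
  have h10 : (n : ℝ) / (8 * C₁ * l * ll) ^ j ≤ T / 2 := by
    have h11 : 0 < (C₁ * l * ll) ^ j := by positivity
    rw [div_le_iff₀ (lt_of_lt_of_le (by positivity) h8)]
    have hT0 : (0 : ℝ) ≤ T := Nat.cast_nonneg _
    nlinarith
  have h12 : (2 : ℝ) * j ≤ T := by exact_mod_cast hT2
  linarith

end Pool.Agent.Helper86.ST
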